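import Pool.Agent.H93.CS.Final
import Pool.Agent.H93.CS.Public

set_option autoImplicit false

/-!
# The average doubling index of Laplace eigenfunctions on closed surfaces

For every closed smooth Riemannian surface, connected or not, the average of the doubling indices
of an eigenfunction over the discs of an admissible covering (discs of radius `C / √λ`) is bounded,
uniformly in the eigenvalue, the eigenfunction and the covering. This is the question of Nazarov,
Polterovich and Sodin.

Outline of the proof.

* Local analysis (`Pool.Agent.H24.Near`, `Pool.Agent.H5.Yau`, `Pool.Agent.H26.Yau`): in isothermal
  coordinates an eigenfunction solves `Δu + λ w u = 0` with `w` smooth. A Carleman estimate and a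
  comparison principle show that `(1/m) log |u|`, also after subtraction of an affine function, is
  nearly subharmonic at all scales `r` at which the growth exponent `m` is large compared with
  `r √λ`: because `w` is smooth, the error of the Carleman commutator is `O(m λ)`. With Riesz
  potentials one gets a contraction, from one scale to a smaller one, of the deviation of
  `log |u|` from affine functions (`u3`), and a lower bound for the slopes at the first passage of
  a large threshold (`u4`).
* Combinatorics of the dyadic (`A`-adic) squares (`Pool.Agent.H88.Yau`): the contraction and the
  first passages give the bound `C λ` for the sum of the growth exponents at the wavelength scale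
  (`local_sum`).
* Surfaces (`Pool.Agent.H94.Geo`, `Pool.Agent.H93.CS`, `Pool.Agent.H97.Iso`): existence of
  isothermal coordinates (Neumann series in weighted Wiener algebras), comparison of geodesic discs
  with discs in charts, propagation of the growth bound of Donnelly and Fefferman along chains of
  discs in each component, and summation over the discs of the covering.
-/

open Manifold Bundle
open scoped ContDiff Topology

universe u

namespace Pool.Agent.Results.MP_c7f82c_an.ClosedSurfaces

open Pool.Agent.H93.Surface

/-- **The question of Nazarov, Polterovich and Sodin.** For every closed smooth Riemannian surface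
`M` (connected or not) and all constants `C, C₁, C₂ > 0` there is a constant `A` such that for every
`λ > 0`, every eigenfunction `φ` for `λ` and every admissible covering for `φ` with the constants
`C, C₁, C₂`, the average of the doubling indices of the discs is at most `A`. -/
theorem result (M : Type u) [EMetricSpace M] [ChartedSpace Plane M] [IsManifold model ∞ M]
    [RiemannianBundle (fun x : M => TangentSpace model x)]
    [IsContMDiffRiemannianBundle model ∞ Plane (fun x : M => TangentSpace model x)]
    [IsRiemannianManifold model M] [CompactSpace M] (C C₁ C₂ : ℝ) (hC : 0 < C) (hC₁ : 0 < C₁)
    (hC₂ : 0 < C₂) :
    ∃ A : ℝ, ∀ (lam : ℝ), 0 < lam → ∀ φ : M → ℝ, IsEigenfunction lam φ →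
      ∀ (ι : Type) [Fintype ι] (c : ι → M), IsAdmissible φ lam C C₁ C₂ c →
        (∑ i, doublingIndex φ (c i) (C / √lam)) / Fintype.card ι ≤ A :=
  of_Q1 Pool.Agent.H93.CS.q1 M C C₁ C₂ hC hC₁ hC₂

end Pool.Agent.Results.MP_c7f82c_an.ClosedSurfaces
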